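import Pool.Agent.Lib.MP_0edfa1_lc.Undirected
import Pool.Agent.Lib.MP_0edfa1_lc.Directed

/-!
# First-order definability of key-invariant LocalMax GNNs

For undirected graphs there is a key-invariant LocalMax GNN whose node query is not definable in
first-order logic. For directed graphs, and for every class of directed graphs which is closed
under subgraphs, every node query expressed by a key-invariant LocalMax GNN is definable.
-/

set_option autoImplicit false

namespace Pool.Agent.Results.MP_0edfa1_lc.Dichotomy

open Pool.Agent.Lib.MP_0edfa1_lc

theorem result :
    (∃ (P : Type) (_ : Finite P) (e : Expr P), KeyInvariant e (fun _ G => G.Undirected) ∧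
      ¬ FODefinable e (fun _ G => G.Simple)) ∧
    (∀ (P : Type) [Finite P] (e : Expr P) (C : (V : Type) → LGraph P V → Prop),
      ClosedUnderSubgraphs C → KeyInvariant e C → FODefinable e C) :=
  ⟨⟨NLab, inferInstance, undirected⟩, fun _ _ e C hC he => directed e C hC he⟩

end Pool.Agent.Results.MP_0edfa1_lc.Dichotomy
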