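import Pool.Agent.Lib.MP_0edfa1_lc.Directed

/-!
# Directed graphs: key-invariant LocalMax GNNs are first-order

For every class of directed graphs which is closed under subgraphs (such as the class of all
directed graphs), every node query expressed by a key-invariant LocalMax GNN is definable in
first-order logic.
-/

set_option autoImplicit false

namespace Pool.Agent.Results.MP_0edfa1_lc.Directed

open Pool.Agent.Lib.MP_0edfa1_lc

theorem result (P : Type) [Finite P] (e : Expr P) (C : (V : Type) → LGraph P V → Prop)
    (hC : ClosedUnderSubgraphs C) (he : KeyInvariant e C) : FODefinable e C :=
  directed e C hC he

end Pool.Agent.Results.MP_0edfa1_lc.Directed
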