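import Pool.Agent.Lib.MP_0edfa1_lc.Undirected

/-!
# Undirected graphs: key-invariant LocalMax GNNs go beyond first-order logic

There is a LocalMax GNN which is key-invariant on all finite undirected labelled graphs and whose
node query is not defined by a first-order formula, not even on simple undirected graphs.
-/

set_option autoImplicit false

namespace Pool.Agent.Results.MP_0edfa1_lc.Undirected

open Pool.Agent.Lib.MP_0edfa1_lc

theorem result :
    ∃ (P : Type) (_ : Finite P) (e : Expr P), KeyInvariant e (fun _ G => G.Undirected) ∧
      ¬ FODefinable e (fun _ G => G.Simple) :=
  ⟨NLab, inferInstance, undirected⟩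

end Pool.Agent.Results.MP_0edfa1_lc.Undirected
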